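import Pool.Agent.N437.SPC.Stm3

/-!
# SPC/LOWG (helper437): many sets with few sums
-/

set_option autoImplicit false

namespace Pool.Agent.N31.SPC.Lowg

open Finset
open scoped Pointwise

lemma choose_low {L n : ℕ} (hn : 1 ≤ n) (hL : n ≤ L) :
    ((L : ℝ) / n) ^ n ≤ (L.choose n : ℝ) := by
  have h1 : L ^ n * n.factorial ≤ n ^ n * L.descFactorial n := by
    rw [← Nat.descFactorial_self, Nat.descFactorial_eq_prod_range, Nat.descFactorial_eq_prod_range]
    calc L ^ n * ∏ i ∈ range n, (n - i) = ∏ i ∈ range n, (L * (n - i)) := by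
          rw [prod_mul_distrib, prod_const, card_range]
      _ ≤ ∏ i ∈ range n, (n * (L - i)) := by
          refine prod_le_prod' fun i hi => ?_
          rw [Nat.mul_sub, Nat.mul_sub, Nat.mul_comm L n]
          exact Nat.sub_le_sub_left (Nat.mul_le_mul_right _ hL) _
      _ = n ^ n * ∏ i ∈ range n, (L - i) := by
          rw [prod_mul_distrib, prod_const, card_range]
  rw [Nat.descFactorial_eq_factorial_mul_choose] at h1
  have h2 : L ^ n ≤ n ^ n * L.choose n := by
    refine Nat.le_of_mul_le_mul_left ?_ (Nat.factorial_pos n)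
    calc n.factorial * L ^ n = L ^ n * n.factorial := mul_comm _ _
      _ ≤ n ^ n * (n.factorial * L.choose n) := h1
      _ = _ := by ring
  have hn0 : (0 : ℝ) < (n : ℝ) ^ n := by positivity
  rw [div_pow, div_le_iff₀ hn0, mul_comm]
  exact_mod_cast h2

theorem t_LOWG : Pool.Agent.N437.SPC.S_LOWG := by
  intro Γ _ _ X P n K hn hPX hnP hK
  have hfin : {A : Finset Γ | A ⊆ X ∧ A.card = n ∧ ((A + A).card : ℝ) ≤ K * n}.Finite :=
    (Finset.finite_toSet X.powerset).subset fun A hA => by
      rw [mem_coe, mem_powerset]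
      exact hA.1
  have hsub : ((P.powersetCard n : Finset (Finset Γ)) : Set (Finset Γ)) ⊆
      {A : Finset Γ | A ⊆ X ∧ A.card = n ∧ ((A + A).card : ℝ) ≤ K * n} := by
    intro A hA
    rw [mem_coe, mem_powersetCard] at hA
    refine ⟨hA.1.trans hPX, hA.2, ?_⟩
    refine le_trans ?_ hK
    exact_mod_cast card_le_card (add_subset_add hA.1 hA.1)
  have h2 := Set.ncard_le_ncard hsub hfin
  rw [Set.ncard_coe_finset, card_powersetCard] at h2
  calc ((P.card : ℝ) / n) ^ n ≤ (P.card.choose n : ℝ) := choose_low hn hnP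
    _ ≤ _ := by exact_mod_cast h2

end Pool.Agent.N31.SPC.Lowg
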